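import Pool.Agent.W170.MV.Final

set_option autoImplicit false

/-!
# Moments of Dirichlet polynomials over clustered sets of integers

If the set `W` of integers in `[1,T]` meets `J` of the intervals `[kH, (k+1)H)`, where `H ≥ √T`,
then `∑_{t ∈ W} |D(t)|^q ≤ C (1 + log N)³ (2N)^(q-2) N (N + J (H + √(N H)))` for all `q ≥ 2`.
-/

namespace Pool.Agent.Results.MP_2a1f0e_nt.ClusteredMoments

open Finset Pool.Agent.W170.MV

theorem result : ∃ C : ℝ, 0 < C ∧
    ∀ q : ℝ, 2 ≤ q → ∀ N T : ℕ, 1 ≤ N → ∀ H : ℝ, 1 ≤ H → (T : ℝ) ≤ H ^ 2 →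
      ∀ b : ℕ → ℂ, (∀ n ∈ Finset.Icc N (2 * N), ‖b n‖ ≤ 1) →
        ∀ W : Finset ℕ, W ⊆ Finset.Icc 1 T →
          ∑ t ∈ W, ‖∑ n ∈ Finset.Icc N (2 * N),
              b n * Complex.exp (Complex.I * (t : ℂ) * ((Real.log (n : ℝ) : ℝ) : ℂ))‖ ^ q ≤
            C * (1 + Real.log N) ^ 3 * (2 * (N : ℝ)) ^ (q - 2) * N *
              (N + ((W.image (fun t : ℕ => ⌊(t : ℝ) / H⌋₊)).card : ℝ) *
                (H + Real.sqrt (N * H))) := by
  classical
  refine ⟨2688 * C1, by linarith [C1_pos], ?_⟩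
  intro q hq N T hN H hH hT b hb W hW
  have hN0 : (0 : ℝ) < N := by exact_mod_cast hN
  have hN1 : (1 : ℝ) ≤ N := by exact_mod_cast hN
  have hH0 : 0 < H := by linarith
  set F : ℝ → ℝ := fun t => ‖∑ n ∈ Icc N (2 * N),
    b n * Complex.exp (Complex.I * (t * Real.log n : ℝ))‖ with hF
  have hinj : Function.Injective (fun t : ℕ => (t : ℝ)) := Nat.cast_injective
  set S : Finset ℝ := W.image (fun t : ℕ => (t : ℝ)) with hS
  have hFW : ∀ t : ℕ, ‖∑ n ∈ Finset.Icc N (2 * N),
      b n * Complex.exp (Complex.I * (t : ℂ) * ((Real.log (n : ℝ) : ℝ) : ℂ))‖ = F t := by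
    intro t
    rw [hF]
    congr 1
    apply sum_congr rfl
    intro n _
    congr 2
    push_cast
    ring
  have hSmem : ∀ t ∈ S, ∃ z ∈ W, (z : ℝ) = t := by
    intro t ht
    rw [hS, mem_image] at ht
    exact ht
  have hS1 : ∀ t ∈ S, 0 ≤ t ∧ t ≤ H ^ 2 := by
    intro t ht
    obtain ⟨z, hz, rfl⟩ := hSmem t ht
    refine ⟨Nat.cast_nonneg _, le_trans ?_ hT⟩
    exact_mod_cast (mem_Icc.1 (hW hz)).2
  have hS2 : ∀ t ∈ S, ∀ u ∈ S, t ≠ u → 1 ≤ |t - u| := by
    intro t ht u hu htu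
    obtain ⟨z, hz, rfl⟩ := hSmem t ht
    obtain ⟨w, hw, rfl⟩ := hSmem u hu
    have hzw : (z : ℤ) - w ≠ 0 := by
      intro h
      apply htu
      have : z = w := by omega
      rw [this]
    have := Int.one_le_abs hzw
    have h2 : ((z : ℝ) - w) = (((z : ℤ) - w : ℤ) : ℝ) := by push_cast; ring
    rw [h2, ← Int.cast_abs]
    exact_mod_cast this
  have h := clustered_dyadic hH N hN b hb S hS1 hS2
  have hFle : ∀ t, F t ≤ 2 * N := by
    intro t
    calc F t ≤ ∑ n ∈ Icc N (2 * N), ‖b n * Complex.exp (Complex.I * (t * Real.log n : ℝ))‖ :=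
          norm_sum_le _ _
      _ ≤ ∑ n ∈ Icc N (2 * N), (1 : ℝ) := by
          apply sum_le_sum
          intro n hn
          rw [norm_mul, mul_comm Complex.I, Complex.norm_exp_ofReal_mul_I, mul_one]
          exact hb n hn
      _ = ((2 * N + 1 - N : ℕ) : ℝ) := by
          rw [sum_const, Nat.card_Icc, nsmul_eq_mul, mul_one]
      _ ≤ 2 * N := by
          have : 2 * N + 1 - N ≤ 2 * N := by omega
          exact_mod_cast this
  have hq2 : 0 ≤ q - 2 := by linarith
  calc ∑ t ∈ W, ‖∑ n ∈ Finset.Icc N (2 * N),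
        b n * Complex.exp (Complex.I * (t : ℂ) * ((Real.log (n : ℝ) : ℝ) : ℂ))‖ ^ q
      = ∑ t ∈ W, F t ^ q := by
        apply sum_congr rfl
        intro t _
        rw [hFW]
    _ ≤ ∑ t ∈ W, (2 * (N : ℝ)) ^ (q - 2) * F t ^ 2 := by
        apply sum_le_sum
        intro t _
        have hF0 : 0 ≤ F t := norm_nonneg _
        rcases hF0.eq_or_lt with h0 | h0
        · rw [← h0, Real.zero_rpow (by linarith)]
          positivity
        · have : F (t : ℝ) ^ q = F t ^ (q - 2) * F t ^ 2 := by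
            rw [← Real.rpow_natCast (F (t : ℝ)) 2, ← Real.rpow_add h0]
            congr 1
            push_cast
            ring
          rw [this]
          apply mul_le_mul_of_nonneg_right _ (by positivity)
          exact Real.rpow_le_rpow hF0 (hFle t) hq2
    _ = (2 * (N : ℝ)) ^ (q - 2) * ∑ t ∈ S, F t ^ 2 := by
        rw [← mul_sum, hS, sum_image (fun x _ y _ hxy => hinj hxy)]
    _ ≤ (2 * (N : ℝ)) ^ (q - 2) * (2688 * C1 * (1 + Real.log N) ^ 3 * N *
          (N + cells H S * (H + Real.sqrt (N * H)))) := by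
        gcongr
    _ = _ := by
        have hc : cells H S = (W.image (fun t : ℕ => ⌊(t : ℝ) / H⌋₊)).card := by
          unfold cells
          rw [hS, image_image]
          rfl
        rw [hc]
        ring

end Pool.Agent.Results.MP_2a1f0e_nt.ClusteredMoments
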